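import Mathlib
import Pool.Agent.H96pack.Upper

open Filter Topology

namespace Pool.Agent.Results.MP_d84bc5_an.ConstantX1

/-- `D` is 2-separated: distinct points of `D` are at distance at least `2`. -/
def IsTwoSeparated {X : Type} [NormedAddCommGroup X] (D : Set X) : Prop :=
  ∀ d ∈ D, ∀ d' ∈ D, d ≠ d' → 2 ≤ ‖d - d'‖

/-- `D` is `ρ`-dense: every point of the space is within `ρ` of a point of `D`. -/
def IsDenseWithin {X : Type} [NormedAddCommGroup X] (D : Set X) (ρ : ℝ) : Prop :=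
  ∀ x : X, ∃ d ∈ D, ‖x - d‖ ≤ ρ

/-- The simultaneous packing and covering constant. -/
noncomputable def gamma (X : Type) [NormedAddCommGroup X] : ℝ :=
  sInf {ρ : ℝ | ∃ D : Set X, IsTwoSeparated D ∧ IsDenseWithin D ρ}

/-- The lattice version of the simultaneous packing and covering constant. -/
noncomputable def gammaStar (X : Type) [NormedAddCommGroup X] : ℝ :=
  sInf {ρ : ℝ | ∃ D : AddSubgroup X, IsTwoSeparated (D : Set X) ∧ IsDenseWithin (D : Set X) ρ}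

/-- The space `ℓ₁ ⊕₂ ℝ`. -/
abbrev X₁ : Type := WithLp 2 (lp (fun _ : ℕ => ℝ) 1 × ℝ)

/-- Both constants of `ℓ₁ ⊕₂ ℝ` are equal to `2 / √3`. Moreover the sets defining them are not
empty and all their members are at least `2 / √3`, so the infima are genuine. -/
theorem result :
    gamma X₁ = 2 / Real.sqrt 3 ∧ gammaStar X₁ = 2 / Real.sqrt 3 ∧
      (∀ (D : Set X₁) (ρ : ℝ), IsTwoSeparated D → IsDenseWithin D ρ → 2 / Real.sqrt 3 ≤ ρ) ∧
      (∀ ρ : ℝ, 2 / Real.sqrt 3 < ρ →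
        ∃ D : AddSubgroup X₁, IsTwoSeparated (D : Set X₁) ∧ IsDenseWithin (D : Set X₁) ρ) := by
  have hlow : ∀ (D : Set X₁) (ρ : ℝ), IsTwoSeparated D → IsDenseWithin D ρ →
      2 / Real.sqrt 3 ≤ ρ := by
    intro D ρ h1 h2
    have h3 := H96pack.lower D ρ h1 h2
    obtain ⟨d, _, hd⟩ := h2 0
    have hρ : 0 ≤ ρ := (norm_nonneg _).trans hd
    rw [← H96pack.r0_sq] at h3
    exact (pow_le_pow_iff_left₀ H96pack.r0_pos.le hρ two_ne_zero).1 h3
  have hup : ∀ ρ : ℝ, 2 / Real.sqrt 3 < ρ →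
      ∃ D : AddSubgroup X₁, IsTwoSeparated (D : Set X₁) ∧ IsDenseWithin (D : Set X₁) ρ := by
    intro ρ hρ
    obtain ⟨D, h1, h2⟩ := H96pack.upper (ρ - 2 / Real.sqrt 3) (sub_pos.2 hρ)
    refine ⟨D, h1, ?_⟩
    have e : H96pack.r0 + (ρ - 2 / Real.sqrt 3) = ρ := by
      rw [H96pack.r0]; ring
    rw [e] at h2
    exact h2
  refine ⟨?_, ?_, hlow, hup⟩
  · apply le_antisymm
    · apply le_of_forall_gt_imp_ge_of_dense
      intro ρ hρ
      obtain ⟨D, h1, h2⟩ := hup ρ hρ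
      exact csInf_le ⟨2 / Real.sqrt 3, fun ρ' ⟨D', h1', h2'⟩ => hlow D' ρ' h1' h2'⟩ ⟨D, h1, h2⟩
    · obtain ⟨D, h1, h2⟩ := hup (2 / Real.sqrt 3 + 1) (by linarith)
      exact le_csInf ⟨_, D, h1, h2⟩ fun ρ' ⟨D', h1', h2'⟩ => hlow D' ρ' h1' h2'
  · apply le_antisymm
    · apply le_of_forall_gt_imp_ge_of_dense
      intro ρ hρ
      obtain ⟨D, h1, h2⟩ := hup ρ hρ
      exact csInf_le ⟨2 / Real.sqrt 3, fun ρ' ⟨D', h1', h2'⟩ => hlow D' ρ' h1' h2'⟩ ⟨D, h1, h2⟩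
    · obtain ⟨D, h1, h2⟩ := hup (2 / Real.sqrt 3 + 1) (by linarith)
      exact le_csInf ⟨_, D, h1, h2⟩ fun ρ' ⟨D', h1', h2'⟩ => hlow D' ρ' h1' h2'

end Pool.Agent.Results.MP_d84bc5_an.ConstantX1
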